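import Pool.Agent.Helper57.TW.Goals

/-!
# Project T74, packet E1: the moduli `Q d₁ d₂` relative to `Q d₁`
-/

set_option autoImplicit false

open Finset Filter Topology

open scoped Classical

namespace Pool.Agent.Helper50.TW

open Pool.Agent.Helper88.CG (tw pw th)
open Pool.Agent.Helper88.PP (SS Sf)
open Pool.Agent.Helper57.TW (T1)

theorem logpow (n : ℕ) (c : ℝ) : ∃ x0 : ℕ, ∀ x : ℕ, x0 ≤ x → c * Real.log x ^ n ≤ (x : ℝ) ^ (1 / 50 : ℝ) := by
  have h := isLittleO_log_rpow_rpow_atTop (s := (1 / 50 : ℝ)) (n : ℝ) (by norm_num)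
  have h2 := (h.const_mul_left c).bound (show (0 : ℝ) < 1 by norm_num)
  have h3 := (tendsto_natCast_atTop_atTop (R := ℝ)).eventually h2
  obtain ⟨x0, hx0⟩ := (h3.and (Filter.eventually_ge_atTop 1)).exists_forall_of_atTop
  refine ⟨x0, fun x hx => ?_⟩
  obtain ⟨h4, h5⟩ := hx0 x hx
  rw [Real.rpow_natCast] at h4
  have h6 : 0 ≤ (x : ℝ) ^ (1 / 50 : ℝ) := Real.rpow_nonneg (Nat.cast_nonneg x) _
  rw [Real.norm_eq_abs, Real.norm_eq_abs, abs_of_nonneg h6, one_mul] at h4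
  exact le_trans (le_abs_self _) h4

theorem harm (D : ℕ) (S : Finset ℕ) (hS : S ⊆ Icc 1 D) :
    ∑ d ∈ S, (1 : ℝ) / d ≤ 1 + Real.log D := by
  have h1 : ∑ d ∈ S, (1 : ℝ) / d ≤ ∑ d ∈ Icc 1 D, (1 : ℝ) / d :=
    Finset.sum_le_sum_of_subset_of_nonneg hS (fun i _ _ => by positivity)
  have h2 := harmonic_le_one_add_log D
  have h3 : ((harmonic D : ℚ) : ℝ) = ∑ d ∈ Icc 1 D, (1 : ℝ) / d := by
    rw [harmonic_eq_sum_Icc]
    push_cast
    refine Finset.sum_congr rfl (fun i _ => ?_)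
    rw [one_div]
  rw [h3] at h2
  exact h1.trans h2

theorem e1 (hRT : Pool.Agent.Helper76.TW.StmtRT) : Pool.Agent.Helper57.TW.StmtE1 := by
  intro B
  obtain ⟨A, x1, hA⟩ := hRT
  obtain ⟨x2, hx2⟩ := logpow (2 * A + B + 3) 1
  obtain ⟨x3, hx3⟩ : ∃ x3 : ℕ, ∀ x : ℕ, x3 ≤ x → 3 ≤ Real.log x := by
    have := (Real.tendsto_log_atTop.comp (tendsto_natCast_atTop_atTop (R := ℝ))).eventually
      (Filter.eventually_ge_atTop 3)
    exact this.exists_forall_of_atTop
  refine ⟨2 * A + B + 3, max x1 (max x2 x3), by omega, ?_⟩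
  intro x hx Q w p1 D hQ hQD hpQ hw a ha
  have hxx1 : x1 ≤ x := le_trans (le_max_left _ _) hx
  have hxx2 : x2 ≤ x := le_trans (le_trans (le_max_left _ _) (le_max_right _ _)) hx
  have hxx3 : x3 ≤ x := le_trans (le_trans (le_max_right _ _) (le_max_right _ _)) hx
  have hl3 := hx3 x hxx3
  have hlp := hx2 x hxx2
  obtain ⟨l, hl⟩ : ∃ l : ℝ, l = Real.log x := ⟨_, rfl⟩
  rw [← hl] at hl3 hlp hpQ hw ⊢
  have hx0 : 0 < x := by
    rcases Nat.eq_zero_or_pos x with h | h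
    · subst h; simp at hl; linarith
    · exact h
  have hxR : (0 : ℝ) < x := by exact_mod_cast hx0
  obtain ⟨u, hu⟩ : ∃ u : ℕ, u = ⌊l ^ (2 * A + B + 3)⌋₊ := ⟨_, rfl⟩
  rw [← hu]
  have hlA : l ≤ l ^ (2 * A + B + 3) := by
    calc l = l ^ 1 := (pow_one l).symm
      _ ≤ l ^ (2 * A + B + 3) := pow_le_pow_right₀ (by linarith) (by omega)
  have hu3 : 3 ≤ u := by
    rw [hu]; apply Nat.le_floor; push_cast; linarith
  have hu_lt : l ^ (2 * A + B + 3) < u + 1 := by rw [hu]; exact Nat.lt_floor_add_one _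
  have hle_u : ∀ m : ℕ, (m : ℝ) ≤ l → m ≤ u := by
    intro m hm
    rw [hu]; apply Nat.le_floor; linarith
  -- the bound for one d1
  have key : ∀ d1 ∈ T1 w u p1 D, ∑ d2 ∈ SS u (D / d1 + 1),
      |th x (Q * d1 * d2) (a (d1 * d2)) - th x (Q * d1) (a (d1 * d2)) / (Nat.totient d2 : ℝ)|
      ≤ (1 / (d1 : ℝ)) * (x / Q * l ^ (A * 2) * (1 / u + (x : ℝ) ^ (-(1 / 50) : ℝ))) := by
    intro d1 hd1
    rw [T1, mem_filter, mem_Icc] at hd1
    obtain ⟨⟨hd1a, hd1b⟩, hsq, hpr, hnp⟩ := hd1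
    have h := hA x (Q * d1) u (D / d1) 1 hxx1 (Nat.mul_pos hQ hd1a) (by omega) ?_ le_rfl ?_
      (fun D' => a (d1 * D')) ?_
    · simp only [Nat.cast_one, one_pow, one_mul] at h
      refine h.trans (le_of_eq ?_)
      rw [← hl]
      have hQR : (Q : ℝ) ≠ 0 := by exact_mod_cast (by omega : Q ≠ 0)
      have hdR : (d1 : ℝ) ≠ 0 := by exact_mod_cast (by omega : d1 ≠ 0)
      push_cast
      field_simp
      try ring
    · intro p hp hpd
      rcases (Nat.Prime.dvd_mul hp).1 hpd with h1 | h1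
      · exact hle_u p (hpQ p hp h1)
      · exact (hpr p hp h1).2
    · refine le_trans (Nat.pow_le_pow_left ?_ 4) hQD
      calc Q * d1 * (D / d1) = Q * (d1 * (D / d1)) := by ring
        _ ≤ Q * D := Nat.mul_le_mul_left _ (Nat.mul_div_le D d1)
    · intro D' hD'
      rw [SS, mem_filter] at hD'
      have hS := hD'.2
      have := ha (d1 * D') ?_
      · rw [← mul_assoc] at this
        exact this
      · intro p hp hpd
        rcases (Nat.Prime.dvd_mul hp).1 hpd with h1 | h1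
        · exact (hpr p hp h1).1
        · have hwu := hle_u w hw
          have : u < p := by
            unfold Sf at hS
            exact lt_of_not_ge (fun hle => by
              have := hS.2 p hp h1
              omega)
          omega
  refine (Finset.sum_le_sum key).trans ?_
  rw [← Finset.sum_mul]
  obtain ⟨ε, hε⟩ : ∃ ε : ℝ, ε = (x : ℝ) ^ (-(1 / 50) : ℝ) := ⟨_, rfl⟩
  rw [← hε]
  have hQR : (0 : ℝ) < Q := by exact_mod_cast (by omega : 0 < Q)
  have hl0 : 0 < l := by linarith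
  have hP : 0 < l ^ (2 * A + B + 3) := by positivity
  have hε1 : ε ≤ 1 / l ^ (2 * A + B + 3) := by
    rw [hε, Real.rpow_neg hxR.le, ← one_div]
    apply one_div_le_one_div_of_le hP
    linarith
  have hε0 : 0 ≤ ε := by rw [hε]; exact Real.rpow_nonneg hxR.le _
  have hu0 : (0 : ℝ) < u := by exact_mod_cast (by omega : 0 < u)
  have hu1 : 1 / (u : ℝ) ≤ 2 / l ^ (2 * A + B + 3) := by
    rw [div_le_div_iff₀ hu0 hP]
    have : (1 : ℝ) ≤ u := by exact_mod_cast (by omega : 1 ≤ u)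
    linarith
  have hDx : D ≤ x := by
    calc D ≤ Q * D := Nat.le_mul_of_pos_left _ (by omega)
      _ ≤ (Q * D) ^ 4 := Nat.le_self_pow (by norm_num) _
      _ ≤ x := hQD
  have hs : ∑ d ∈ T1 w u p1 D, (1 : ℝ) / d ≤ 2 * l := by
    have h1 := harm D (T1 w u p1 D) (by rw [T1]; exact Finset.filter_subset _ _)
    have h2 : Real.log D ≤ l := by
      rcases Nat.eq_zero_or_pos D with h | h
      · rw [h]; simp; linarith
      · rw [hl]; exact Real.log_le_log (by exact_mod_cast h) (by exact_mod_cast hDx)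
    linarith
  have hs0 : 0 ≤ ∑ d ∈ T1 w u p1 D, (1 : ℝ) / d := Finset.sum_nonneg (fun i _ => by positivity)
  have h3 : 1 / (u : ℝ) + ε ≤ 3 / l ^ (2 * A + B + 3) := by
    have : (3 : ℝ) / l ^ (2 * A + B + 3) = 2 / l ^ (2 * A + B + 3) + 1 / l ^ (2 * A + B + 3) := by ring
    rw [this]; linarith
  have h4 : x / Q * l ^ (A * 2) * (1 / u + ε) ≤ x / Q * l ^ (A * 2) * (3 / l ^ (2 * A + B + 3)) :=
    mul_le_mul_of_nonneg_left h3 (by positivity)
  calc (∑ d ∈ T1 w u p1 D, (1 : ℝ) / d) * (x / Q * l ^ (A * 2) * (1 / u + ε))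
      ≤ (2 * l) * (x / Q * l ^ (A * 2) * (3 / l ^ (2 * A + B + 3))) :=
        mul_le_mul hs h4 (by positivity) (by positivity)
    _ = x / Q / l ^ B * (6 / l ^ 2) := by
        rw [show l ^ (2 * A + B + 3) = l ^ (A * 2) * l ^ B * l ^ 3 by
          rw [← pow_add, ← pow_add]; congr 1; ring]
        field_simp
        ring
    _ ≤ x / Q / l ^ B * 1 := by
        apply mul_le_mul_of_nonneg_left _ (by positivity)
        rw [div_le_one (by positivity)]
        nlinarith only [hl3]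
    _ = x / Q / l ^ B := mul_one _

end Pool.Agent.Helper50.TW
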