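import Pool.Agent.Helper70.TW.Goals

/-!
# TW packet WDIAG (MP_c7dfba_nt, project of helper70): systems of diagonal forms
-/

set_option autoImplicit false

namespace Pool.Agent.Helper50.TW

open MvPolynomial Pool.Agent.Helper70.BU Pool.Agent.Helper70.TW

universe u v

/-- the root `s` -/
theorem exists_s (hR : Helper70.Lang.Root.{v}) (R : Type v) [Field R] [IsRealClosed R] (d : ℕ)
    (hd : 1 ≤ d) : ∃ s : R, ∑ b ∈ Finset.range (d / 2 + 1),
      ((d.choose (2 * b) : R) * ((2 * b).choose b : R) * (-1) ^ b * s ^ (d - 2 * b)) = 0 := by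
  rcases Nat.even_or_odd' d with ⟨c, rfl | rfl⟩
  · have hc : 1 ≤ c := by omega
    obtain ⟨s, hs⟩ := hR R c hc
    have hs0 : s ≠ 0 := by
      rintro rfl
      rw [Finset.sum_eq_single 0] at hs
      · simp at hs
      · intro b _ hb
        simp [hb]
      · simp
    refine ⟨s⁻¹, ?_⟩
    have h2 : 2 * c / 2 = c := by omega
    rw [h2]
    have : ∀ b ∈ Finset.range (c + 1),
        (((2 * c).choose (2 * b) : R) * ((2 * b).choose b : R) * (-1) ^ b *
          s⁻¹ ^ (2 * c - 2 * b)) =
        s⁻¹ ^ (2 * c) * (((2 * c).choose (2 * b) : R) * ((2 * b).choose b : R) *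
          (-(s ^ 2)) ^ b) := by
      intro b hb
      have hb' : b ≤ c := by simpa [Nat.lt_succ_iff] using hb
      have h3 : s⁻¹ ^ (2 * c) = s⁻¹ ^ (2 * c - 2 * b) * s⁻¹ ^ (2 * b) := by
        rw [← pow_add]; congr 1; omega
      have h4 : s⁻¹ ^ (2 * b) * (s ^ 2) ^ b = 1 := by
        rw [pow_mul, ← mul_pow, ← mul_pow, inv_mul_cancel₀ hs0]
        simp
      rw [h3, neg_pow (s ^ 2) b]
      linear_combination (-(((2 * c).choose (2 * b) : R) * ((2 * b).choose b : R) * (-1) ^ b *
          s⁻¹ ^ (2 * c - 2 * b))) * h4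
    rw [Finset.sum_congr rfl this, ← Finset.mul_sum, hs, mul_zero]
  · refine ⟨0, Finset.sum_eq_zero fun b hb => ?_⟩
    have hb' : b < (2 * c + 1) / 2 + 1 := Finset.mem_range.1 hb
    have : (2 * c + 1) - 2 * b ≠ 0 := by omega
    rw [zero_pow this, mul_zero]

/-- the polynomials -/
noncomputable def pol {K : Type u} [Field K] {n : ℕ} (a : Fin n → K) (A B : ℕ) :
    MvPolynomial (Fin n ⊕ Fin n) (GF K) :=
  ∑ l, monomial (Finsupp.single (Sum.inl l) A + Finsupp.single (Sum.inr l) B)
    (algebraMap K (GF K) (a l))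

theorem pol_Mh {K : Type u} [Field K] {n : ℕ} (a : Fin n → K) (A B : ℕ) :
    Mh (fun _ : Fin n => ()) (fun _ => A) (fun _ => B) (pol a A B) := by
  classical
  intro e he k
  have := support_sum he
  rw [Finset.mem_biUnion] at this
  obtain ⟨l, _, hl⟩ := this
  have h2 := support_monomial_subset hl
  rw [Finset.mem_singleton] at h2
  subst h2
  constructor <;> simp [Finsupp.single_apply]

theorem evs_pol {K : Type u} [Field K] {n : ℕ} (a : Fin n → K) (A B : ℕ) (w : Fin n → GF K) :
    evs w (pol a A B) = ∑ l, algebraMap K (GF K) (a l) * (w l ^ A * star (w l) ^ B) := by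
  unfold evs pol
  rw [map_sum]
  refine Finset.sum_congr rfl fun l _ => ?_
  rw [eval_monomial, Finsupp.prod_add_index', Finsupp.prod_single_index, Finsupp.prod_single_index]
  · simp
  · simp
  · simp
  · simp
  · intro i m n
    rw [pow_add]

theorem star_alg {K : Type u} [Field K] (x : K) :
    star (algebraMap K (GF K) x) = algebraMap K (GF K) x := by
  ext <;> simp

theorem wdiag (hW : WID.{u}) (hR : Helper70.Lang.Root.{v}) : WDIAG.{u, v} := by
  intro R K _ _ _ _ i hT hK hxy r d n hd hn a
  obtain ⟨x₀, y₀, hρ⟩ := hxy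
  obtain ⟨s, hs⟩ := exists_s hR R d hd
  have : CharZero R := inferInstance
  have hinj : Function.Injective (algebraMap R K) := (algebraMap R K).injective
  -- the norm
  have hnorm : ∀ p q : K, p ^ 2 + q ^ 2 = 0 → p = 0 ∧ q = 0 := by
    intro p q h
    have hq : q = 0 := by
      by_contra hq
      apply hK (p / q)
      rw [div_pow, div_eq_iff (pow_ne_zero 2 hq)]
      linear_combination h
    subst hq
    refine ⟨?_, rfl⟩
    have : p ^ 2 = 0 := by linear_combination h
    exact pow_eq_zero_iff (two_ne_zero) |>.1 this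
  obtain ⟨w, hw, hw0⟩ := hT (Fin n) Unit (Fin r × Fin d) (fun _ => ())
    (fun l _ => d + (l.2 + 1)) (fun l _ => d - (l.2 + 1))
    (fun l h => by
      have h0 : d + ((l.2 : ℕ) + 1) = d - ((l.2 : ℕ) + 1) := congrFun h ()
      omega)
    (fun k => by
      have h1 : ∀ l : Fin r × Fin d, (∑ _k' : Unit, (d + ((l.2 : ℕ) + 1) + (d - ((l.2 : ℕ) + 1)))) ^ i
          = (2 * d) ^ i := by
        intro l
        have := l.2.2
        congr 1
        simp only [Finset.univ_unique, Finset.sum_const, Finset.card_singleton, one_smul]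
        omega
      rw [Finset.sum_congr rfl fun l _ => h1 l]
      simp only [Finset.sum_const, Finset.card_univ, Fintype.card_prod, Fintype.card_fin,
        smul_eq_mul, bn]
      simpa using hn)
    (fun l => pol (a l.1) (d + (l.2 + 1)) (d - (l.2 + 1)))
    (fun l => pol_Mh _ _ _)
  obtain ⟨l₀, -, hl₀⟩ := hw ()
  set S : GF K := algebraMap K (GF K) (algebraMap R K s) with hS
  set ρ : GF K := ⟨x₀, y₀⟩ with hρd
  have hρ1 : ρ * star ρ = -1 := by
    rw [hρd]
    ext
    · simp [QuadraticAlgebra.re_one]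
      linear_combination hρ
    · simp [QuadraticAlgebra.im_one]
      ring
  obtain ⟨Cc, Cc', hC⟩ := hW (GF K) S ρ (star ρ) hρ1 d
  -- the solution
  have hx : ∀ l, ∃ x : K, algebraMap K (GF K) x =
      S * (w l * star (w l)) + ρ * w l ^ 2 + star ρ * star (w l) ^ 2 := by
    intro l
    refine ⟨(S * (w l * star (w l)) + ρ * w l ^ 2 + star ρ * star (w l) ^ 2).re, ?_⟩
    rw [hS, hρd]
    ext
    · simp
    · simp [pow_two]
      ring
  choose x hx using hx
  refine ⟨x, ?_, ?_⟩
  · intro hx0
    have h1 := hx l₀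
    rw [hx0] at h1
    simp only [Pi.zero_apply, map_zero] at h1
    set N : K := (w l₀).re ^ 2 + (w l₀).im ^ 2 with hN
    have hN0 : N ≠ 0 := by
      intro h
      obtain ⟨h2, h3⟩ := hnorm _ _ h
      apply hl₀
      ext
      · simpa using h2
      · simpa using h3
    obtain ⟨c, hc⟩ := Pool.Agent.Helper51.Lang.FTA.sum_sq_eq_sq s 2
    have hc0 : c ≠ 0 := by
      rintro rfl
      have h2 : s ^ 2 + 2 ^ 2 = 0 := by rw [hc]; ring
      have := (Pool.Agent.Helper51.Lang.FTA.add_sq_eq_zero h2).2
      exact two_ne_zero this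
    have hcK : (algebraMap R K s) ^ 2 + 4 = (algebraMap R K c) ^ 2 := by
      rw [← map_pow (algebraMap R K) c, ← hc, map_add, map_pow, map_pow, map_ofNat]
      norm_num
    have hcK0 : algebraMap R K c ≠ 0 := by
      intro h
      exact hc0 (hinj (by rw [h, map_zero]))
    have h2K : (2 : K) ≠ 0 := by
      intro h
      have : algebraMap R K 2 = 0 := by rw [map_ofNat]; exact h
      exact two_ne_zero (hinj (by rw [this, map_zero]))
    set z : GF K := ρ * w l₀ ^ 2 with hz
    have hzre : 2 * z.re + algebraMap R K s * N = 0 := by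
      have h9 : z.re = x₀ * ((w l₀).re ^ 2 - (w l₀).im ^ 2) - 2 * y₀ * (w l₀).re * (w l₀).im := by
        rw [hz]
        simp only [hρd]
        simp [pow_two]
        ring
      have := congrArg QuadraticAlgebra.re h1
      rw [hN]
      simp only [hS, hρd] at this
      simp [pow_two] at this
      linear_combination -this + h9
    have hzn : z.re ^ 2 + z.im ^ 2 = - N ^ 2 := by
      have h5 : z.re ^ 2 + z.im ^ 2 = (x₀ ^ 2 + y₀ ^ 2) * N ^ 2 := by
        rw [hz, hN]
        simp only [hρd]
        simp [pow_two]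
        ring
      rw [h5, hρ]
      ring
    have h4 : (2 * z.im) ^ 2 = - (N * algebraMap R K c) ^ 2 := by
      have h6 : 2 * z.re = - (algebraMap R K s * N) := by linear_combination hzre
      have h7 : (2 * z.re) ^ 2 = (algebraMap R K s * N) ^ 2 := by rw [h6]; ring
      linear_combination 4 * hzn - h7 - N ^ 2 * hcK
    apply hK (2 * z.im / (N * algebraMap R K c))
    rw [div_pow, h4, neg_div, div_self]
    exact pow_ne_zero 2 (mul_ne_zero hN0 hcK0)
  · intro j
    apply QuadraticAlgebra.algebraMap_injective (a := (-1 : K)) (b := 0)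
    have hs' : (∑ b ∈ Finset.range (d / 2 + 1),
        (d.choose (2 * b) : GF K) * ((2 * b).choose b : GF K) * (-1) ^ b * S ^ (d - 2 * b)) = 0 := by
      have := congrArg (fun t => algebraMap K (GF K) (algebraMap R K t)) hs
      simp only [map_zero, map_sum, map_mul, map_pow, map_natCast, map_neg, map_one] at this
      exact this
    have hSS : ∀ k ∈ Finset.range d, ∑ l, algebraMap K (GF K) (a j l) *
        (w l ^ (d + (k + 1)) * star (w l) ^ (d - (k + 1))) = 0 := by
      intro k hk
      have := hw0 (j, ⟨k, Finset.mem_range.1 hk⟩)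
      rw [evs_pol] at this
      exact this
    have hSS' : ∀ k ∈ Finset.range d, ∑ l, algebraMap K (GF K) (a j l) *
        (w l ^ (d - (k + 1)) * star (w l) ^ (d + (k + 1))) = 0 := by
      intro k hk
      have := congrArg star (hSS k hk)
      rw [star_zero, star_sum] at this
      rw [← this]
      refine Finset.sum_congr rfl fun l _ => ?_
      rw [star_mul', star_alg, star_mul', star_pow, star_pow, star_star]
      ring
    rw [map_sum, map_zero]
    have h8 : ∀ l, algebraMap K (GF K) (a j l * x l ^ d) =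
        ∑ k ∈ Finset.range d, (Cc k * (algebraMap K (GF K) (a j l) *
          (w l ^ (d + (k + 1)) * star (w l) ^ (d - (k + 1)))) +
        Cc' k * (algebraMap K (GF K) (a j l) *
          (w l ^ (d - (k + 1)) * star (w l) ^ (d + (k + 1))))) := by
      intro l
      rw [map_mul, map_pow, hx l, hC, hs', zero_mul, zero_add, Finset.mul_sum]
      refine Finset.sum_congr rfl fun k _ => ?_
      ring
    rw [Finset.sum_congr rfl fun l _ => h8 l, Finset.sum_comm]
    refine Finset.sum_eq_zero fun k hk => ?_
    rw [Finset.sum_add_distrib, ← Finset.mul_sum, ← Finset.mul_sum, hSS k hk, hSS' k hk]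
    simp

end Pool.Agent.Helper50.TW
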